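import Pool.Agent.Y324.AC.Hille

set_option autoImplicit false

open Filter Topology

/-! Weakly amenable algebras generated by an element with polynomially bounded powers have the
homomorphism property; the nilpotent case for all weakly amenable algebras. -/

namespace Pool.Agent.Y257.HP

/-- every bounded derivation into the dual vanishes -/
def WA (A : Type) [NormedCommRing A] [NormedAlgebra ℂ A] : Prop :=
  ∀ D : A →L[ℂ] (A →L[ℂ] ℂ), (∀ a b x : A, D (a * b) x = D b (x * a) + D a (b * x)) → D = 0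

section

variable {A B : Type} [NormedCommRing A] [NormedAlgebra ℂ A] [NormedCommRing B] [NormedAlgebra ℂ B]

/-- derivations into symmetric modules -/
lemma der_zero (hW : WA A) (φ : A →L[ℂ] B) (hφ : ∀ a b, φ (a * b) = φ a * φ b) (δ : A →L[ℂ] B)
    (hδ : ∀ a b, δ (a * b) = φ a * δ b + φ b * δ a) (a : A) : δ a * φ 1 = 0 := by
  refine NormedSpace.eq_zero_of_forall_dual_eq_zero ℂ (fun l => ?_)
  set D : A →L[ℂ] (A →L[ℂ] ℂ) := ((ContinuousLinearMap.compL ℂ A B ℂ) l) ∘L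
    (((ContinuousLinearMap.compL ℂ A B B).flip φ) ∘L ((ContinuousLinearMap.mul ℂ B) ∘L δ)) with hD
  have hDa : ∀ a x, D a x = l (δ a * φ x) := fun a x => rfl
  have h0 : D = 0 := by
    apply hW
    intro a b x
    rw [hDa, hDa, hDa, hδ, hφ, hφ, ← map_add]
    congr 1
    ring
  have := hDa a 1
  rw [h0] at this
  exact this.symm

lemma idem {e f : B} (he : e * e = e) (hf : f * f = f) (h : e - f ∈ (⊥ : Ideal B).jacobson) :
    e = f := by
  have h1 : (e - f) * (1 - (e - f) * (e - f)) = 0 := by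
    have e3 : e * e * e = e := by rw [he, he]
    have f3 : f * f * f = f := by rw [hf, hf]
    have ef : e * e * f = e * f := by rw [he]
    have fe : e * (f * f) = e * f := by rw [hf]
    linear_combination -e3 + f3 + 3 * ef - 3 * fe
  have h2 : IsUnit ((e - f) * (-(e - f)) + 1) := Ideal.mem_jacobson_bot.1 h _
  have h3 : (e - f) * (-(e - f)) + 1 = 1 - (e - f) * (e - f) := by ring
  rw [h3] at h2
  have h4 : e - f = 0 := (h2.mul_left_eq_zero).1 h1
  exact sub_eq_zero.1 h4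

lemma nil_step (hW : WA A) (φ ψ : A →L[ℂ] B) (hφ : ∀ a b, φ (a * b) = φ a * φ b)
    (hψ : ∀ a b, ψ (a * b) = ψ a * ψ b) (h1 : φ 1 = ψ 1) (n : ℕ)
    (h : ∀ a : Fin (n + 2) → A, ∏ i, (ψ (a i) - φ (a i)) = 0) (a : Fin (n + 1) → A) :
    ∏ i, (ψ (a i) - φ (a i)) = 0 := by
  set c : B := ∏ i : Fin n, (ψ (a i.succ) - φ (a i.succ)) with hc
  set δ : A →L[ℂ] B := (ContinuousLinearMap.mul ℂ B c) ∘L (ψ - φ) with hδ
  have hδa : ∀ x, δ x = c * (ψ x - φ x) := fun x => rfl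
  have hcc : ∀ x y, c * ((ψ x - φ x) * (ψ y - φ y)) = 0 := by
    intro x y
    have := h (Fin.cons x (Fin.cons y (fun i : Fin n => a i.succ)))
    rw [Fin.prod_univ_succ, Fin.prod_univ_succ] at this
    simp only [Fin.cons_zero, Fin.cons_succ] at this
    rw [← hc] at this
    linear_combination this
  have hder := der_zero hW φ hφ δ (fun x y => by
    rw [hδa, hδa, hδa, hφ, hψ]
    linear_combination hcc x y) (a 0)
  have h2 : δ (a 0) * φ 1 = δ (a 0) := by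
    have e1 : φ (a 0) * φ 1 = φ (a 0) := by rw [← hφ, mul_one]
    have e2 : ψ (a 0) * φ 1 = ψ (a 0) := by rw [h1, ← hψ, mul_one]
    rw [hδa]
    linear_combination c * e2 - c * e1
  rw [Fin.prod_univ_succ, ← hc, mul_comm, ← hδa, ← h2]
  exact hder

lemma nil_main' (hW : WA A) (φ ψ : A →L[ℂ] B) (hφ : ∀ a b, φ (a * b) = φ a * φ b)
    (hψ : ∀ a b, ψ (a * b) = ψ a * ψ b) (h1 : φ 1 = ψ 1) : ∀ n : ℕ,
    (∀ a : Fin (n + 1) → A, ∏ i, (ψ (a i) - φ (a i)) = 0) → φ = ψ := by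
  intro n
  induction n with
  | zero =>
    intro h
    ext x
    have := h (fun _ => x)
    rw [Fin.prod_univ_succ, Fin.prod_univ_zero, mul_one] at this
    exact (sub_eq_zero.1 this).symm
  | succ n ih =>
    intro h
    exact ih (nil_step hW φ ψ hφ hψ h1 n h)

/-- the nilpotent case -/
theorem nil_main (hW : WA A) (φ ψ : A →L[ℂ] B) (hφ : ∀ a b, φ (a * b) = φ a * φ b)
    (hψ : ∀ a b, ψ (a * b) = ψ a * ψ b) (n : ℕ)
    (h : ∀ a : Fin n → A, ∏ i, (ψ (a i) - φ (a i)) = 0) : φ = ψ := by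
  have h1 : φ 1 = ψ 1 := by
    apply idem (by rw [← hφ, mul_one]) (by rw [← hψ, mul_one])
    have e1 : (ψ 1 - φ 1) ^ n = 0 := by
      have := h (fun _ => 1)
      simpa using this
    have e2 : IsNilpotent (φ 1 - ψ 1) := by
      refine ⟨n, ?_⟩
      have : φ 1 - ψ 1 = -(ψ 1 - φ 1) := by ring
      rw [this, neg_pow, e1, mul_zero]
    have e3 : φ 1 - ψ 1 ∈ nilradical B := e2
    have e4 : nilradical B ≤ (⊥ : Ideal B).jacobson := Ideal.radical_le_jacobson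
    exact e4 e3
  refine nil_main' hW φ ψ hφ hψ h1 n (fun a => ?_)
  rw [Fin.prod_univ_castSucc, h (fun i => a i.castSucc), zero_mul]

end

section

variable {A B : Type} [NormedCommRing A] [NormedAlgebra ℂ A] [NormedCommRing B] [NormedAlgebra ℂ B]
  [CompleteSpace B]

lemma radius_zero {N : B} (hN : N ∈ (⊥ : Ideal B).jacobson) : spectralRadius ℂ N = 0 := by
  have h : spectrum ℂ N ⊆ {0} := by
    intro k hk
    by_contra h0
    apply hk
    have h1 : IsUnit (N * (-algebraMap ℂ B k⁻¹) + 1) := Ideal.mem_jacobson_bot.1 hN _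
    have h2 : algebraMap ℂ B k - N = algebraMap ℂ B k * (N * (-algebraMap ℂ B k⁻¹) + 1) := by
      have e1 : algebraMap ℂ B k * algebraMap ℂ B k⁻¹ = 1 := by
        rw [← map_mul, mul_inv_cancel₀ h0, map_one]
      linear_combination N * e1
    have h3 : IsUnit (algebraMap ℂ B k - N) := by
      rw [h2]
      exact ((isUnit_iff_ne_zero.2 h0).map (algebraMap ℂ B)).mul h1
    exact h3
  rw [spectralRadius]
  refine le_antisymm (iSup₂_le fun k hk => ?_) bot_le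
  rw [Set.mem_singleton_iff.1 (h hk)]
  simp

lemma pow_form (φ ψ : A →L[ℂ] B) (hφ : ∀ a b, φ (a * b) = φ a * φ b)
    (hψ : ∀ a b, ψ (a * b) = ψ a * ψ b) (he : φ 1 = ψ 1) (g g' : A) (n : ℕ) :
    (ψ g * φ g' + (1 - φ 1)) ^ n = ψ (g ^ n) * φ (g' ^ n) + (1 - φ 1) := by
  have ee : φ 1 * φ 1 = φ 1 := by rw [← hφ, mul_one]
  induction n with
  | zero =>
    rw [pow_zero, pow_zero, pow_zero, ← he]
    linear_combination -ee
  | succ n ih =>
    rw [pow_succ, ih, pow_succ, pow_succ, hψ, hφ]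
    have e1 : φ (g' ^ n) * φ 1 = φ (g' ^ n) := by rw [← hφ, mul_one]
    have e2 : φ g' * φ 1 = φ g' := by rw [← hφ, mul_one]
    linear_combination (-ψ (g ^ n)) * e1 - ψ g * e2 + ee

lemma nil_one (g g' : A) (hg : g * g' = 1)
    {C : ℝ} {k : ℕ} (h1 : ∀ n : ℕ, ‖g ^ n‖ ≤ C * ((n : ℝ) + 1) ^ k)
    (h2 : ∀ n : ℕ, ‖g' ^ n‖ ≤ C * ((n : ℝ) + 1) ^ k)
    (φ ψ : A →L[ℂ] B) (hφ : ∀ a b, φ (a * b) = φ a * φ b)
    (hψ : ∀ a b, ψ (a * b) = ψ a * ψ b) (he : φ 1 = ψ 1)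
    (hrad : ∀ a, φ a - ψ a ∈ (⊥ : Ideal B).jacobson) :
    ∃ N : B, IsNilpotent N ∧ ψ g - φ g = N * φ g ∧ ψ g' - φ g' = N * (-ψ g') := by
  have ee : φ 1 * φ 1 = φ 1 := by rw [← hφ, mul_one]
  have uu : φ g * φ g' = φ 1 := by rw [← hφ, hg]
  have vv : ψ g * ψ g' = φ 1 := by rw [← hψ, hg, ← he]
  have ue : φ g * φ 1 = φ g := by rw [← hφ, mul_one]
  have ue' : φ g' * φ 1 = φ g' := by rw [← hφ, mul_one]
  have ve : ψ g * φ 1 = ψ g := by rw [he, ← hψ, mul_one]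
  have ve' : ψ g' * φ 1 = ψ g' := by rw [he, ← hψ, mul_one]
  have hC0 : 0 ≤ C := by
    have := h1 0
    simp only [pow_zero, Nat.cast_zero, zero_add, one_pow, mul_one] at this
    exact (norm_nonneg _).trans this
  obtain ⟨N, hN⟩ : ∃ N : B, N = ψ g * φ g' - φ 1 := ⟨_, rfl⟩
  have hNJ : N ∈ (⊥ : Ideal B).jacobson := by
    have e1 : N = (-φ g') * (φ g - ψ g) := by
      rw [hN]; linear_combination uu
    rw [e1]
    exact Ideal.mul_mem_left _ _ (hrad g)
  have hxy : (ψ g * φ g' + (1 - φ 1)) * (φ g * ψ g' + (1 - φ 1)) = 1 := by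
    linear_combination (ψ g * ψ g') * uu + φ 1 * vv - ψ g * ue' - ψ g' * ue + 2 * ee
  have hform1 := pow_form φ ψ hφ hψ he g g'
  have hform2 : ∀ n : ℕ, (φ g * ψ g' + (1 - φ 1)) ^ n = φ (g ^ n) * ψ (g' ^ n) + (1 - φ 1) := by
    intro n
    have := pow_form ψ φ hψ hφ he.symm g g' n
    rwa [← he] at this
  have hbound : ∀ (α β : A →L[ℂ] B) (n : ℕ), ‖α (g ^ n) * β (g' ^ n) + (1 - φ 1)‖ ≤
      (‖α‖ * ‖β‖ * C ^ 2 + ‖(1 : B) - φ 1‖) * ((n : ℝ) + 1) ^ (2 * k) := by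
    intro α β n
    have hn1 : (1 : ℝ) ≤ ((n : ℝ) + 1) ^ (2 * k) := one_le_pow₀ (by
      have : (0 : ℝ) ≤ n := Nat.cast_nonneg n
      linarith)
    have b1 : ‖α (g ^ n)‖ ≤ ‖α‖ * (C * ((n : ℝ) + 1) ^ k) :=
      (α.le_opNorm _).trans (mul_le_mul_of_nonneg_left (h1 n) (norm_nonneg _))
    have b2 : ‖β (g' ^ n)‖ ≤ ‖β‖ * (C * ((n : ℝ) + 1) ^ k) :=
      (β.le_opNorm _).trans (mul_le_mul_of_nonneg_left (h2 n) (norm_nonneg _))
    have hn0 : (0 : ℝ) ≤ ((n : ℝ) + 1) ^ k := by positivity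
    calc ‖α (g ^ n) * β (g' ^ n) + (1 - φ 1)‖ ≤ ‖α (g ^ n)‖ * ‖β (g' ^ n)‖ + ‖(1 : B) - φ 1‖ :=
          (norm_add_le _ _).trans (add_le_add (norm_mul_le _ _) le_rfl)
      _ ≤ (‖α‖ * (C * ((n : ℝ) + 1) ^ k)) * (‖β‖ * (C * ((n : ℝ) + 1) ^ k)) +
          ‖(1 : B) - φ 1‖ * ((n : ℝ) + 1) ^ (2 * k) := by
          refine add_le_add (mul_le_mul b1 b2 (norm_nonneg _) (by positivity)) ?_
          exact le_mul_of_one_le_right (norm_nonneg _) hn1
      _ = _ := by rw [two_mul, pow_add]; ring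
  have hmax : ∃ K : ℝ, (‖ψ‖ * ‖φ‖ * C ^ 2 + ‖(1 : B) - φ 1‖) ≤ K ∧
      (‖φ‖ * ‖ψ‖ * C ^ 2 + ‖(1 : B) - φ 1‖) ≤ K := ⟨max _ _, le_max_left _ _, le_max_right _ _⟩
  obtain ⟨K, K1, K2⟩ := hmax
  have hnil : N ^ (2 * k + 1) = 0 := by
    refine Pool.Agent.Y324.AC.hille (x := ψ g * φ g' + (1 - φ 1)) (y := φ g * ψ g' + (1 - φ 1))
      (C := K) (k := 2 * k) (radius_zero hNJ) (by rw [hN]; ring) hxy
      (by rw [mul_comm]; exact hxy) (fun n => ?_) (fun n => ?_)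
    · rw [hform1]
      exact (hbound ψ φ n).trans (mul_le_mul_of_nonneg_right K1 (by positivity))
    · rw [hform2]
      exact (hbound φ ψ n).trans (mul_le_mul_of_nonneg_right K2 (by positivity))
  refine ⟨N, ⟨_, hnil⟩, ?_, ?_⟩
  · rw [hN]; linear_combination (-ψ g) * uu - ve + ue
  · rw [hN]; linear_combination (φ g') * vv + ue' - ve'

/-- finitely many generators with polynomially bounded powers -/
theorem fin_main (hW : WA A) {m : ℕ} (g g' : Fin m → A) (hg : ∀ i, g i * g' i = 1)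
    (hdense : Dense ((Algebra.adjoin ℂ (Set.range g ∪ Set.range g') : Subalgebra ℂ A) : Set A))
    {C : ℝ} {k : ℕ} (h1 : ∀ i (n : ℕ), ‖g i ^ n‖ ≤ C * ((n : ℝ) + 1) ^ k)
    (h2 : ∀ i (n : ℕ), ‖g' i ^ n‖ ≤ C * ((n : ℝ) + 1) ^ k)
    (φ ψ : A →L[ℂ] B) (hφ : ∀ a b, φ (a * b) = φ a * φ b)
    (hψ : ∀ a b, ψ (a * b) = ψ a * ψ b)
    (hrad : ∀ a, φ a - ψ a ∈ (⊥ : Ideal B).jacobson) : φ = ψ := by
  have he : φ 1 = ψ 1 := idem (by rw [← hφ, mul_one]) (by rw [← hψ, mul_one]) (hrad 1)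
  have hex : ∀ i, ∃ N : B, IsNilpotent N ∧ ψ (g i) - φ (g i) = N * φ (g i) ∧
      ψ (g' i) - φ (g' i) = N * (-ψ (g' i)) := fun i =>
    nil_one (g i) (g' i) (hg i) (h1 i) (h2 i) φ ψ hφ hψ he hrad
  choose N hN1 hN2 hN3 using hex
  set I : Ideal B := Ideal.span (Set.range N) with hI
  have hmemI : ∀ i, N i ∈ I := fun i => Ideal.subset_span ⟨i, rfl⟩
  have hfg : I.FG := ⟨(Set.finite_range N).toFinset, by simp [hI]⟩
  have hnil : IsNilpotent I := by
    refine (hfg.isNilpotent_iff_le_nilradical).2 (Ideal.span_le.2 ?_)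
    rintro _ ⟨i, rfl⟩
    exact hN1 i
  obtain ⟨M, hM⟩ := hnil
  -- the differences are in the ideal
  have hin : ∀ a ∈ Algebra.adjoin ℂ (Set.range g ∪ Set.range g'), ψ a - φ a ∈ I := by
    intro a ha
    induction ha using Algebra.adjoin_induction with
    | mem x hx =>
      rcases hx with ⟨i, rfl⟩ | ⟨i, rfl⟩
      · rw [hN2]; exact Ideal.mul_mem_right _ _ (hmemI i)
      · rw [hN3]; exact Ideal.mul_mem_right _ _ (hmemI i)
    | algebraMap r =>
      rw [Algebra.algebraMap_eq_smul_one, map_smul, map_smul, he, sub_self]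
      exact zero_mem _
    | add x y _ _ hx hy =>
      have : ψ (x + y) - φ (x + y) = (ψ x - φ x) + (ψ y - φ y) := by rw [map_add, map_add]; ring
      rw [this]
      exact add_mem hx hy
    | mul x y _ _ hx hy =>
      have : ψ (x * y) - φ (x * y) = ψ x * (ψ y - φ y) + (ψ x - φ x) * φ y := by
        rw [hψ, hφ]; ring
      rw [this]
      exact add_mem (Ideal.mul_mem_left _ _ hy) (Ideal.mul_mem_right _ _ hx)
  refine nil_main hW φ ψ hφ hψ M ?_
  set S : Set A := ((Algebra.adjoin ℂ (Set.range g ∪ Set.range g') : Subalgebra ℂ A) : Set A)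
    with hS
  have hd : Dense (Set.pi Set.univ (fun _ : Fin M => S)) :=
    dense_pi Set.univ (fun _ _ => hdense)
  have hcl : IsClosed {a : Fin M → A | ∏ i, (ψ (a i) - φ (a i)) = 0} := by
    refine isClosed_eq ?_ continuous_const
    refine continuous_finsetProd _ fun i _ => ?_
    exact (ψ.continuous.comp (continuous_apply i)).sub (φ.continuous.comp (continuous_apply i))
  intro a
  have hsub : Set.pi Set.univ (fun _ : Fin M => S) ⊆
      {a : Fin M → A | ∏ i, (ψ (a i) - φ (a i)) = 0} := by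
    intro a ha
    show ∏ i, (ψ (a i) - φ (a i)) = 0
    have hp : ∏ i, (ψ (a i) - φ (a i)) ∈ ∏ _i : Fin M, I :=
      Ideal.prod_mem_prod fun i _ => hin (a i) (ha i (Set.mem_univ i))
    rw [Finset.prod_const, Finset.card_univ, Fintype.card_fin, hM] at hp
    exact hp
  have h3 := hcl.closure_subset_iff.2 hsub
  rw [hd.closure_eq] at h3
  exact h3 (Set.mem_univ a)

end

end Pool.Agent.Y257.HP
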