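import Pool.Agent.Helper287.HP.Main

set_option autoImplicit false

open Filter Topology

/-! Slowly growing subadditive functions below a given function of superpolynomial growth. -/

namespace Pool.Agent.Y257.HP

lemma log_le_eps {ε r : ℝ} (h0 : 0 < ε) (h1 : ε ≤ 1) (hr : 0 ≤ r) :
    Real.log (1 + r) ≤ ε * r + Real.log ε⁻¹ := by
  have e1 : 1 + r ≤ ε⁻¹ * Real.exp (ε * r) := by
    have e2 : 1 + r ≤ ε⁻¹ * (1 + ε * r) := by
      have : ε⁻¹ * (1 + ε * r) = ε⁻¹ + r := by field_simp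
      rw [this]
      have : 1 ≤ ε⁻¹ := (one_le_inv₀ h0).2 h1
      linarith
    refine e2.trans (mul_le_mul_of_nonneg_left ?_ (inv_nonneg.2 h0.le))
    linarith [Real.add_one_le_exp (ε * r)]
  have e3 := Real.log_le_log (by linarith) e1
  rw [Real.log_mul (inv_ne_zero h0.ne') (Real.exp_pos _).ne', Real.log_exp] at e3
  linarith

lemma log_rel {m r : ℝ} (hm : 0 < m) (hr : m ≤ r) :
    Real.log (1 + r) ≤ r / m * Real.log (1 + m) := by
  have h1 : 1 ≤ r / m := (one_le_div hm).2 hr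
  have h2 := one_add_mul_self_le_rpow_one_add (s := m) (by linarith) h1
  have h3 : r / m * m = r := by field_simp
  rw [h3] at h2
  have h4 := Real.log_le_log (by linarith) h2
  rwa [Real.log_rpow (by linarith)] at h4

/-- the function -/
noncomputable def LL (ρ : ℕ → ℝ) (n : ℕ) : ℝ := max (Real.log (ρ (n + 1))) (Real.log (1 + ((n : ℝ) + 1)))

noncomputable def TT (ρ : ℕ → ℝ) (n : ℕ) (r : ℝ) : ℝ := max 1 (r / ((n : ℝ) + 1)) * LL ρ n

noncomputable def h1 (ρ : ℕ → ℝ) (r : ℝ) : ℝ := ⨅ n, TT ρ n r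

noncomputable def hh (ρ : ℕ → ℝ) (r : ℝ) : ℝ := min (Real.sqrt r) (h1 ρ r)

variable {ρ : ℕ → ℝ}

lemma LL_ge (n : ℕ) : Real.log 2 ≤ LL ρ n := by
  refine le_trans (Real.log_le_log (by norm_num) ?_) (le_max_right _ _)
  have : (0 : ℝ) ≤ n := Nat.cast_nonneg n
  linarith

lemma LL_pos (n : ℕ) : 0 < LL ρ n := lt_of_lt_of_le (Real.log_pos (by norm_num)) (LL_ge n)

lemma TT_nonneg (n : ℕ) (r : ℝ) : 0 ≤ TT ρ n r :=
  mul_nonneg (le_trans zero_le_one (le_max_left _ _)) (LL_pos n).le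

lemma bdd (r : ℝ) : BddBelow (Set.range fun n => TT ρ n r) := ⟨0, by
  rintro _ ⟨n, rfl⟩; exact TT_nonneg n r⟩

lemma h1_le (n : ℕ) (r : ℝ) : h1 ρ r ≤ TT ρ n r := ciInf_le (bdd r) n

lemma h1_nonneg (r : ℝ) : 0 ≤ h1 ρ r := le_ciInf fun n => TT_nonneg n r

lemma hh_nonneg (r : ℝ) : 0 ≤ hh ρ r := le_min (Real.sqrt_nonneg _) (h1_nonneg r)

lemma hh_mono {r s : ℝ} (hrs : r ≤ s) : hh ρ r ≤ hh ρ s := by
  refine min_le_min (Real.sqrt_le_sqrt hrs) (le_ciInf fun n => (h1_le n r).trans ?_)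
  refine mul_le_mul_of_nonneg_right (max_le_max le_rfl ?_) (LL_pos n).le
  gcongr

lemma hh_ratio {r t : ℝ} (hr : 0 ≤ r) (hrt : r ≤ t) : r * hh ρ t ≤ t * hh ρ r := by
  have ht : 0 ≤ t := hr.trans hrt
  have e1 : r * hh ρ t ≤ t * Real.sqrt r := by
    refine (mul_le_mul_of_nonneg_left (min_le_left _ _) hr).trans ?_
    have a1 := Real.mul_self_sqrt hr
    have a2 := Real.mul_self_sqrt ht
    have a3 := Real.sqrt_le_sqrt hrt
    have a4 := Real.sqrt_nonneg r
    have a5 := Real.sqrt_nonneg t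
    calc r * Real.sqrt t = Real.sqrt r * (Real.sqrt r * Real.sqrt t) := by rw [← mul_assoc, a1]
      _ ≤ Real.sqrt t * (Real.sqrt r * Real.sqrt t) :=
          mul_le_mul_of_nonneg_right a3 (mul_nonneg a4 a5)
      _ = t * Real.sqrt r := by
          rw [mul_comm (Real.sqrt r), ← mul_assoc, a2]
  have e2 : r * hh ρ t ≤ t * h1 ρ r := by
    rcases eq_or_lt_of_le ht with h0 | h0
    · have : r = 0 := le_antisymm (hrt.trans h0.symm.le) hr
      rw [this, ← h0]; simp
    · have e3 : r * hh ρ t / t ≤ h1 ρ r := by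
        refine le_ciInf fun n => ?_
        rw [div_le_iff₀ h0]
        refine (mul_le_mul_of_nonneg_left ((min_le_right _ _).trans (h1_le n t)) hr).trans ?_
        have e4 : r * max 1 (t / ((n : ℝ) + 1)) ≤ max 1 (r / ((n : ℝ) + 1)) * t := by
          rw [mul_max_of_nonneg _ _ hr, max_mul_of_nonneg _ _ ht]
          refine max_le_max (by linarith) (le_of_eq (by ring))
        calc r * TT ρ n t = (r * max 1 (t / ((n : ℝ) + 1))) * LL ρ n := by rw [TT]; ring
          _ ≤ (max 1 (r / ((n : ℝ) + 1)) * t) * LL ρ n :=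
              mul_le_mul_of_nonneg_right e4 (LL_pos n).le
          _ = TT ρ n r * t := by rw [TT]; ring
      rw [div_le_iff₀ h0] at e3
      linarith
  show r * hh ρ t ≤ t * min (Real.sqrt r) (h1 ρ r)
  rw [mul_min_of_nonneg _ _ ht]
  exact le_min e1 e2

lemma hh_sub {r s : ℝ} (hr : 0 ≤ r) (hs : 0 ≤ s) : hh ρ (r + s) ≤ hh ρ r + hh ρ s := by
  have e1 := hh_ratio (ρ := ρ) hr (by linarith : r ≤ r + s)
  have e2 := hh_ratio (ρ := ρ) hs (by linarith : s ≤ r + s)
  rcases eq_or_lt_of_le (add_nonneg hr hs) with h0 | h0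
  · have hr0 : r = 0 := by linarith
    have hs0 : s = 0 := by linarith
    rw [hr0, hs0, add_zero]
    linarith [hh_nonneg (ρ := ρ) 0]
  · have e3 : (r + s) * hh ρ (r + s) ≤ (r + s) * (hh ρ r + hh ρ s) := by linarith
    exact le_of_mul_le_mul_left e3 h0

lemma hh_growth (hρ : ∀ k : ℕ, ∀ᶠ n : ℕ in atTop, (n : ℝ) ^ k ≤ ρ n) (D : ℕ) :
    ∃ A : ℝ, 1 ≤ A ∧ ∀ r : ℝ, 0 ≤ r → (1 + r) ^ D ≤ A * Real.exp (hh ρ r) := by
  obtain ⟨A1, hA1, hA1'⟩ := Pool.Agent.Helper287.HP.stage0.growth D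
  obtain ⟨N0, hN0⟩ := eventually_atTop.1 (((hρ (2 * D)).and (eventually_ge_atTop 2)))
  have hN2 : 2 ≤ N0 := (hN0 N0 le_rfl).2
  have hN0R : (2 : ℝ) ≤ N0 := by exact_mod_cast hN2
  have hlog2 : 0 < Real.log 2 := Real.log_pos (by norm_num)
  have hlog2' : Real.log 2 ≤ 1 := by
    have := Real.log_two_lt_d9; linarith
  set ε : ℝ := Real.log 2 / (N0 * (D + 1)) with hε
  have hε0 : 0 < ε := by positivity
  have hε1 : ε ≤ 1 := by
    rw [hε, div_le_one (by positivity)]
    have : (1 : ℝ) ≤ N0 * (D + 1) := by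
      have : (0 : ℝ) ≤ D := Nat.cast_nonneg D
      nlinarith
    linarith
  have hC0 : 0 ≤ (D : ℝ) * Real.log ε⁻¹ :=
    mul_nonneg (Nat.cast_nonneg D) (Real.log_nonneg ((one_le_inv₀ hε0).2 hε1))
  have key : ∀ r : ℝ, 0 ≤ r → (D : ℝ) * Real.log (1 + r) ≤ h1 ρ r + D * Real.log ε⁻¹ := by
    intro r hr
    rw [← sub_le_iff_le_add]
    refine le_ciInf fun n => ?_
    set m : ℝ := (n : ℝ) + 1 with hm
    have hm0 : 0 < m := by positivity
    have hD0 : (0 : ℝ) ≤ D := Nat.cast_nonneg D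
    have hTT : TT ρ n r = max 1 (r / m) * LL ρ n := rfl
    by_cases hmN : N0 ≤ n + 1
    · obtain ⟨b1, b2⟩ := hN0 (n + 1) hmN
      have b3 : (1 + m) ^ D ≤ ρ (n + 1) := by
        refine le_trans ?_ b1
        rw [pow_mul]
        refine pow_le_pow_left₀ (by positivity) ?_ D
        have : (2 : ℝ) ≤ m := by
          rw [hm]; exact_mod_cast b2
        push_cast
        rw [← hm]
        nlinarith
      have b4 : (D : ℝ) * Real.log (1 + m) ≤ LL ρ n := by
        refine le_trans ?_ (le_max_left _ _)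
        rw [← Real.log_pow]
        exact Real.log_le_log (by positivity) b3
      have b5 : (D : ℝ) * Real.log (1 + r) ≤ TT ρ n r := by
        rw [hTT]
        by_cases hrm : r ≤ m
        · calc (D : ℝ) * Real.log (1 + r) ≤ D * Real.log (1 + m) :=
                mul_le_mul_of_nonneg_left (Real.log_le_log (by linarith) (by linarith)) hD0
            _ ≤ LL ρ n := b4
            _ ≤ _ := le_mul_of_one_le_left (LL_pos n).le (le_max_left _ _)
        · push Not at hrm
          calc (D : ℝ) * Real.log (1 + r) ≤ D * (r / m * Real.log (1 + m)) :=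
                mul_le_mul_of_nonneg_left (log_rel hm0 hrm.le) hD0
            _ = r / m * (D * Real.log (1 + m)) := by ring
            _ ≤ r / m * LL ρ n := mul_le_mul_of_nonneg_left b4 (by positivity)
            _ ≤ _ := mul_le_mul_of_nonneg_right (le_max_right _ _) (LL_pos n).le
      linarith
    · push Not at hmN
      have b1 : m ≤ N0 := by
        rw [hm]; exact_mod_cast hmN.le
      have b2 : ε * (D + 1) * r ≤ TT ρ n r := by
        have b3 : ε * (D + 1) = Real.log 2 / N0 := by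
          rw [hε]; field_simp
        rw [b3, hTT]
        calc Real.log 2 / N0 * r = (r / N0) * Real.log 2 := by ring
          _ ≤ (r / m) * LL ρ n := by
              refine mul_le_mul ?_ (LL_ge n) hlog2.le (by positivity)
              exact div_le_div_of_nonneg_left hr hm0 b1
          _ ≤ _ := mul_le_mul_of_nonneg_right (le_max_right _ _) (LL_pos n).le
      have b4 := mul_le_mul_of_nonneg_left (log_le_eps hε0 hε1 hr) hD0
      have b5 : 0 ≤ ε * r := by positivity
      linarith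
  refine ⟨max 1 (max A1 (Real.exp (D * Real.log ε⁻¹))), le_max_left _ _, fun r hr => ?_⟩
  have g1 : (1 + r) ^ D ≤ A1 * Real.exp (Real.sqrt r) := by
    have := hA1' (r : ℂ)
    rw [Complex.norm_real, Real.norm_of_nonneg hr] at this
    refine this.trans (le_of_eq ?_)
    show A1 * Real.exp (Real.sqrt ‖(r : ℂ)‖) = _
    rw [Complex.norm_real, Real.norm_of_nonneg hr]
  have g2 : (1 + r) ^ D ≤ Real.exp (D * Real.log ε⁻¹) * Real.exp (h1 ρ r) := by
    rw [← Real.exp_add, ← Real.log_le_iff_le_exp (by positivity), Real.log_pow]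
    linarith [key r hr]
  rcases min_choice (Real.sqrt r) (h1 ρ r) with h | h
  · rw [hh, h]
    refine g1.trans (mul_le_mul_of_nonneg_right ?_ (Real.exp_pos _).le)
    exact (le_max_left _ _).trans (le_max_right _ _)
  · rw [hh, h]
    refine g2.trans (mul_le_mul_of_nonneg_right ?_ (Real.exp_pos _).le)
    exact (le_max_right _ _).trans (le_max_right _ _)

lemma hh_le (hρ : ∀ k : ℕ, ∀ᶠ n : ℕ in atTop, (n : ℝ) ^ k ≤ ρ n) :
    ∀ᶠ n : ℕ in atTop, Real.exp (hh ρ n) ≤ ρ n := by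
  filter_upwards [hρ 2, eventually_ge_atTop 2] with n h2 hn
  obtain ⟨m, rfl⟩ : ∃ m, n = m + 1 := ⟨n - 1, by omega⟩
  have hnR : (2 : ℝ) ≤ ((m + 1 : ℕ) : ℝ) := by exact_mod_cast hn
  have h3 : 1 + (((m + 1 : ℕ)) : ℝ) ≤ ρ (m + 1) := by nlinarith
  have h4 : 0 < ρ (m + 1) := by linarith
  rw [← Real.le_log_iff_exp_le h4]
  refine (min_le_right _ _).trans ((h1_le m _).trans ?_)
  rw [TT]
  have h5 : (((m + 1 : ℕ)) : ℝ) / ((m : ℝ) + 1) = 1 := by
    push_cast
    exact div_self (by positivity)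
  rw [h5, max_self, one_mul, LL]
  refine max_le le_rfl (Real.log_le_log (by positivity) ?_)
  push_cast at h3
  linarith

end Pool.Agent.Y257.HP
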