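import Pool.Agent.Y257.HP.Growth

set_option autoImplicit false

open Filter Topology

/-! Weakly amenable Beurling algebras of arbitrarily slow superpolynomial growth without the
homomorphism property. -/

namespace Pool.Agent.Y257.HP
open Pool.Agent.Helper287.HP

theorem stage_of {ρ : ℕ → ℝ} (hρ : ∀ k : ℕ, ∀ᶠ n : ℕ in atTop, (n : ℝ) ^ k ≤ ρ n) :
    ∃ (s : Stage) (v : ℝ) (n0 : ℕ), 0 < v ∧ v < ‖s.f 1‖ ∧
      ∀ n : ℤ, n0 ≤ n.natAbs → s.W n ≤ ρ n.natAbs := by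
  obtain ⟨A, hA, hA'⟩ := hh_growth hρ 1
  obtain ⟨n0, hn0⟩ := eventually_atTop.1 (hh_le hρ)
  have hA0 : 0 < A := by linarith
  refine ⟨⟨fun z => Real.exp (hh ρ ‖z‖), fun z => z / (A : ℂ), 1, fun z => ?_, fun z u => ?_,
    fun z => ?_, fun D => ?_, ?_, fun z => ?_, fun z => ?_, ?_⟩, 1 / (2 * A), n0, by positivity,
    ?_, fun n hn => ?_⟩
  · exact Real.one_le_exp (hh_nonneg _)
  · rw [← Real.exp_add]
    refine Real.exp_le_exp.2 ((hh_mono (norm_add_le z u)).trans ?_)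
    exact hh_sub (norm_nonneg _) (norm_nonneg _)
  · exact Real.exp_le_exp.2 (min_le_left _ _)
  · obtain ⟨A2, h2, h2'⟩ := hh_growth hρ D
    exact ⟨A2, by linarith, fun z => h2' _ (norm_nonneg _)⟩
  · fun_prop
  · rw [norm_div, Complex.norm_real, Real.norm_of_nonneg hA0.le, pow_one, div_le_iff₀ hA0]
    have := norm_nonneg z
    nlinarith
  · rw [norm_div, Complex.norm_real, Real.norm_of_nonneg hA0.le, div_le_iff₀ hA0]
    have := hA' ‖z‖ (norm_nonneg _)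
    rw [pow_one] at this
    linarith
  · simp
  · show 1 / (2 * A) < ‖(1 : ℂ) / (A : ℂ)‖
    rw [norm_div, Complex.norm_real, Real.norm_of_nonneg hA0.le, norm_one]
    exact one_div_lt_one_div_of_lt hA0 (by linarith)
  · have h1 := hn0 n.natAbs hn
    show Real.exp (hh ρ ‖((n : ℤ) : ℂ)‖) ≤ _
    have h2 : ‖((n : ℤ) : ℂ)‖ = ((n.natAbs : ℕ) : ℝ) := by
      rw [Complex.norm_intCast, Nat.cast_natAbs]; simp
    rw [h2]
    exact h1

theorem exists_stages' (s0 : Stage) (v : ℝ) (hv : 0 < v) (h0 : v < ‖s0.f 1‖) :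
    ∃ S : ℕ → Stage, S 0 = s0 ∧ (∀ k z, (S (k + 1)).W z ≤ (S k).W z) ∧
    (∀ k, v < ‖(S k).f 1‖) ∧
    (∀ η : ℝ, 0 < η → ∃ k, ∃ N : ℕ, 1 ≤ N ∧ (S k).W N * (S k).W (-N) ≤ η * N) := by
  classical
  have step : ∀ (k : ℕ) (s : {s : Stage // v < ‖s.f 1‖}), ∃ s' : {s : Stage // v < ‖s.f 1‖},
      (∀ z, s'.1.W z ≤ s.1.W z) ∧
      ∃ N : ℕ, 1 ≤ N ∧ s'.1.W N * s'.1.W (-N) ≤ (1 / ((k : ℝ) + 1)) * N := by
    intro k s
    obtain ⟨s', h1, h2, h3⟩ := exists_step s.1 v hv s.2 (1 / ((k : ℝ) + 1)) (by positivity)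
    exact ⟨⟨s', h2⟩, h1, h3⟩
  choose g hg1 hg2 using step
  let S : ℕ → {s : Stage // v < ‖s.f 1‖} := fun n => Nat.rec ⟨s0, h0⟩ (fun k s => g k s) n
  refine ⟨fun n => (S n).1, rfl, ?_, fun k => (S k).2, ?_⟩
  · intro k z
    exact hg1 k (S k) z
  · intro η hη
    obtain ⟨k, hk⟩ := exists_nat_one_div_lt hη
    obtain ⟨N, hN1, hN2⟩ := hg2 k (S k)
    refine ⟨k + 1, N, hN1, ?_⟩
    refine le_trans hN2 ?_
    exact mul_le_mul_of_nonneg_right hk.le (Nat.cast_nonneg _)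

theorem neg_main (ρ : ℕ → ℝ) (hρ : ∀ k : ℕ, ∀ᶠ n : ℕ in atTop, (n : ℝ) ^ k ≤ ρ n) :
    ∃ Ω : ℤ → ℝ, (∀ n, 1 ≤ Ω n ∧ Ω n ≤ Real.exp (Real.sqrt |(n : ℝ)|)) ∧
    (∀ m n, Ω (m + n) ≤ Ω m * Ω n) ∧
    (∃ n0 : ℕ, ∀ n : ℤ, n0 ≤ n.natAbs → Ω n ≤ ρ n.natAbs) ∧
    ∃ (A : Type) (_ : NormedCommRing A) (_ : NormedAlgebra ℂ A) (_ : CompleteSpace A),
    ((⊥ : Ideal A).jacobson = ⊥ ∧ Nontrivial A) ∧
    (∃ ι : AddMonoidAlgebra ℂ ℤ →ₐ[ℂ] A, DenseRange ι ∧
      ∀ P, ‖ι P‖ = ∑ n ∈ P.coeff.support, ‖P.coeff n‖ * Ω n) ∧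
    (∀ D : A →L[ℂ] (A →L[ℂ] ℂ),
      (∀ a b x : A, D (a * b) x = D b (x * a) + D a (b * x)) → D = 0) ∧
    ∃ (B : Type) (_ : NormedCommRing B) (_ : NormedAlgebra ℂ B) (_ : CompleteSpace B)
      (φ ψ : A →ₐ[ℂ] B), Continuous φ ∧ Continuous ψ ∧ φ ≠ ψ ∧
        ∀ a, φ a - ψ a ∈ (⊥ : Ideal B).jacobson := by
  classical
  obtain ⟨s0, v, n0, hv0, hv1, hs0⟩ := stage_of hρ
  obtain ⟨S, hS0, hS, hS1, hS2⟩ := exists_stages' s0 v hv0 hv1
  set sB : AlgSemi := qBAlg S hS with hsB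
  set Ω : ℤ → ℝ := fun n => sB.q (AddMonoidAlgebra.single n 1) with hΩ
  have hΩ1 : ∀ n, 1 ≤ Ω n := fun n => le_qB S fun k => one_le_pS_single _ _
  have hΩ0 : ∀ n, 0 ≤ Ω n := fun n => le_trans zero_le_one (hΩ1 n)
  have hΩs : ∀ m n, Ω (m + n) ≤ Ω m * Ω n := by
    intro m n
    have := sB.mul (AddMonoidAlgebra.single m 1) (AddMonoidAlgebra.single n 1)
    rw [AddMonoidAlgebra.single_mul_single, mul_one] at this
    exact this
  have hΩW : ∀ k n, Ω n ≤ (S k).W n := fun k n => (qB_le S _ k).trans (pS_single _ _)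
  have hΩexp : ∀ n, Ω n ≤ Real.exp (Real.sqrt |(n : ℝ)|) := by
    intro n
    refine (hΩW 0 n).trans (((S 0).le_exp _).trans ?_)
    rw [Complex.norm_intCast]
  set sA : AlgSemi := wlAlg Ω hΩ0 hΩs with hsA
  obtain ⟨A, iA1, iA2, iA3, ιA, hdA, hnA, hextA⟩ := exists_completion sA
  obtain ⟨B, iB1, iB2, iB3, ιB, hdB, hnB, hextB⟩ := exists_completion sB
  have hnA' : ∀ P, ‖ιA P‖ = wl1 Ω P := hnA
  have hmonoA : ∀ n : ℤ, ‖ιA (mono n)‖ = Ω n := by
    intro n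
    rw [hnA']
    unfold mono
    rw [wl1_single, norm_one, one_mul]
  have hone : ‖(1 : B)‖ ≤ 1 := by
    have : (1 : B) = ιB (AddMonoidAlgebra.single 0 1) := by
      rw [← AddMonoidAlgebra.one_def, map_one]
    rw [this, hnB]
    have := hΩW 0 0
    rw [Int.cast_zero, W_zero] at this
    exact this
  -- the two homomorphisms
  obtain ⟨φ, hφc, hφ, -⟩ := hextA B ιB (fun P => by
    rw [hnB]; exact AlgSemi.le_wl1 sB P)
  obtain ⟨ψ, hψc, hψ, -⟩ := hextA B ((Algebra.ofId ℂ B).comp (evalAt 1)) (fun P => by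
    have h1 : ((Algebra.ofId ℂ B).comp (evalAt 1)) P = algebraMap ℂ B (evalAt 1 P) := rfl
    rw [h1, norm_algebraMap]
    have h2 := norm_evalAt_le hΩ1 1 (by simp) P
    have h3 := norm_nonneg (evalAt 1 P)
    calc ‖evalAt 1 P‖ * ‖(1 : B)‖ ≤ ‖evalAt 1 P‖ * 1 := mul_le_mul_of_nonneg_left hone h3
      _ ≤ _ := by rw [mul_one]; exact h2)
  have hψ1 : ψ (ιA (mono 1)) = 1 := by
    rw [hψ]
    have h1 : ((Algebra.ofId ℂ B).comp (evalAt 1)) (mono 1) = algebraMap ℂ B (evalAt 1 (mono 1)) :=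
      rfl
    rw [h1]
    unfold mono
    rw [evalAt_single]
    simp
  refine ⟨Ω, fun n => ⟨hΩ1 n, hΩexp n⟩, hΩs, ⟨n0, fun n hn => ?_⟩, A, iA1, iA2, iA3, ⟨?_, ?_⟩,
    ⟨ιA, hdA, hnA'⟩, ?_, B, iB1, iB2, iB3, φ, ψ, hφc, hψc, ?_, ?_⟩
  · refine (hΩW 0 n).trans ?_
    rw [hS0]
    exact hs0 n hn
  · apply semisimple_of ιA hdA hΩ1 hnA'
    intro ζ hζ
    obtain ⟨χ, -, hχ1, hχ2⟩ := hextA ℂ (evalAt ζ) (fun P => norm_evalAt_le hΩ1 ζ hζ P)
    exact ⟨χ, hχ1, hχ2⟩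
  · refine ⟨⟨1, 0, fun h => ?_⟩⟩
    have h1 := hmonoA 0
    rw [mono_zero, map_one, h, norm_zero] at h1
    have := hΩ1 0
    linarith
  · intro D hD
    apply derivation_zero ιA hdA _ D hD
    intro η hη
    obtain ⟨k, N, hN, hb⟩ := hS2 η hη
    refine ⟨N, hN, ?_⟩
    rw [hmonoA, hmonoA]
    refine le_trans ?_ hb
    apply mul_le_mul _ _ (hΩ0 _) (le_trans zero_le_one ((S k).one_le _))
    · exact_mod_cast hΩW k N
    · have := hΩW k (-N)
      push_cast at this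
      exact this
  · intro heq
    have h1 : φ (ιA (mono 1)) = 1 := by rw [heq]; exact hψ1
    rw [hφ] at h1
    have h2 : ‖ιB (mono 1 - 1)‖ = 0 := by rw [map_sub, h1, map_one, sub_self, norm_zero]
    rw [hnB] at h2
    have h3 : v ≤ sB.q (mono 1 - 1) := by
      apply le_qB
      intro k
      refine le_trans (hS1 k).le ?_
      have h4 := le_pS (S k) (mono 1 - 1) (S k).diff (S k).f_le
      have h5 := pair_diff (S k).f 0
      simp only [zero_add, Int.cast_zero, (S k).f_zero, sub_zero] at h5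
      unfold mono at h4 ⊢
      rw [h5] at h4
      exact h4
    rw [h2] at h3
    linarith
  · intro a
    apply mem_radical
    intro χ
    have hχc : Continuous χ := χ.1.continuous
    -- the value at the generator
    have hχ1 : χ (ιB (mono 1)) = 1 := by
      set c : ℂ := χ (ιB (mono 1)) - 1 with hc
      have hcx : c = χ (ιB (mono 1 - 1)) := by rw [hc, map_sub, map_sub, map_one, map_one]
      have hbound : ∀ x : B, ‖χ x‖ ≤ ‖x‖ := by
        intro x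
        have h1 := WeakDual.CharacterSpace.norm_le_norm_one χ
        have h2 := ContinuousLinearMap.le_opNorm (WeakDual.toStrongDual (χ : WeakDual ℂ B)) x
        refine h2.trans ?_
        calc _ ≤ 1 * ‖x‖ := mul_le_mul_of_nonneg_right (h1.trans hone) (norm_nonneg _)
          _ = _ := one_mul _
      have hj : ∀ j : ℕ, 1 ≤ j → ‖c‖ ≤ Real.exp 2 / j := by
        intro j hj1
        have h1 : ‖c‖ ^ j ≤ (Real.exp 2 / j) ^ j := by
          rw [← norm_pow, hcx, ← map_pow, ← map_pow]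
          refine (hbound _).trans ?_
          rw [hnB]
          refine (qB_le S _ 0).trans ?_
          exact pS_pow_le (S 0) j hj1
        exact le_of_pow_le_pow_left₀ (by omega) (by positivity) h1
      have hlim : Tendsto (fun j : ℕ => Real.exp 2 / (j : ℝ)) atTop (𝓝 0) :=
        tendsto_const_div_atTop_nhds_zero_nat _
      have : ‖c‖ ≤ 0 := by
        apply ge_of_tendsto hlim
        filter_upwards [eventually_ge_atTop 1] with j hj1 using hj j hj1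
      have hc0 : c = 0 := norm_le_zero_iff.mp this
      rw [hc] at hc0
      exact sub_eq_zero.mp hc0
    -- the two composites agree
    have hdense : ∀ x : A, χ (φ x) = χ (ψ x) := by
      have hcl : IsClosed {x : A | χ (φ x) = χ (ψ x)} :=
        isClosed_eq (hχc.comp hφc) (hχc.comp hψc)
      intro x
      refine hdA.induction_on x hcl ?_
      intro P
      let χ' : B →ₐ[ℂ] ℂ := WeakDual.CharacterSpace.toAlgHom χ
      have hχ' : ∀ x, χ' x = χ x := fun x => rfl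
      have h1 : ((χ'.comp φ).comp ιA) = ((χ'.comp ψ).comp ιA) := by
        apply algHom_eq
        change χ' (φ (ιA (mono 1))) = χ' (ψ (ιA (mono 1)))
        rw [hψ1, map_one, hφ, hχ', hχ1]
      have h2 := congrArg (fun f : GA →ₐ[ℂ] ℂ => f P) h1
      exact h2
    rw [map_sub, hdense, sub_self]


end Pool.Agent.Y257.HP
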